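import Pool.Agent.Mg.Fe4304eq.Gec9891

namespace Pool.Agent.Results.MP_e4304e_gt.FiniteTypeSeparates

open Pool.Agent.MP_e4304e_gt

theorem result (n : ℕ) (w w' : List (Gen n × Bool))
    (hw : braidOfWord w ∈ VirtualPureBraidGroup n) (hw' : braidOfWord w' ∈ VirtualPureBraidGroup n)
    (hne : braidOfWord w ≠ braidOfWord w')
    (A C : Diagram (n + 1)) (hA : IsGauss A) (hC : IsGauss C)
    (h : IsGauss fun i => A i ++ gaussDiagram w i ++ C i)
    (h' : IsGauss fun i => A i ++ gaussDiagram w' i ++ C i) :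
    ∃ (k : ℕ) (v : VirtualStringLink (n + 1) → ℤ),
      IsFiniteType k v ∧ v (linkOf _ h) ≠ v (linkOf _ h') :=
  RP.finite_type w w' hw hw' hne A C hA hC h h'

end Pool.Agent.Results.MP_e4304e_gt.FiniteTypeSeparates
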